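import Pool.Agent.H49.DN.Trf

/-!
# Compact Bergman commutators imply a compact `∂̄`-Neumann operator

Let `Ω ⊆ ℂ^n` be bounded and pseudoconvex and let `B` be its Bergman projection. If the commutators `[B, M_ψ]` with the
multiplications by all continuous functions `ψ` on the closure of `Ω` are compact, then the `∂̄`-Neumann operator `N₁` on
`(0,1)`-forms is compact.

Proof. Let `S₁` be the canonical solution operator of `∂̄` on functions, `α` a `∂̄`-closed form, `u = S₁ α`. For
`h = exp(-M |z - p|²)` Hörmander's theorem gives `v` with `∂̄v = α` and `∫ |v|² h ≤ (2/M) ∫ |α|² h`. Then `a = u - v` is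
holomorphic and `u` is orthogonal to the holomorphic functions, so
`∫ |u|² h = ⟨h u, v⟩ + ⟨[B, h] u, a⟩`, hence `∫ |u|² h ≤ (2/M) ∫ |α|² h + C_M ‖K α‖ ‖α‖` with `K = [B, h] S₁` compact.
Summing over the points `p` of a lattice with mesh `(n M)^(-1/2)` gives `‖S₁ α‖² ≤ (C/M) ‖α‖² + ...`, and `M → ∞` shows that
`S₁` is compact. If `f` is orthogonal to the kernel of `∂̄` on `(0,1)`-forms, its coefficients are orthogonal to the holomorphic
functions and `∑ ‖∂̄f_j‖² ≤ ‖∂̄f‖²` (Morrey-Kohn), so `f_j = S₁ ∂̄f_j` and the solution operator `S₂` is compact too;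
`N₁ = S₁^* S₁ + S₂ S₂^*`.
-/

set_option autoImplicit false

namespace Pool.Agent.Results.MP_b1e046_an.CompactNeumannOfCommutators

open DNS

/-- Let `Ω ⊆ ℂ^n` be bounded and pseudoconvex. It has a unique Bergman projection `B`, and if the commutators of `B` with
the multiplications by the continuous functions on the closure of `Ω` are compact operators on `L²(Ω)`, then `□₁` has a
compact inverse `N₁`. -/
theorem result {n : ℕ} (Ω : Set (Cn n)) (hb : Bornology.IsBounded Ω) (hΩ : Pseudoconvex Ω) :
    (∃! B, IsBergman Ω B) ∧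
      ∀ B, IsBergman Ω B → CompactCommutators Ω B → CompactNeumann Ω :=
  transfer hb hΩ

end Pool.Agent.Results.MP_b1e046_an.CompactNeumannOfCommutators
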